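import Pool.Agent.J4.H53.Cx.Crit
import Pool.Agent.J4.H53.Col.AltMain

/-!
# Colmez's product formula and the values of the irreducible characters

`K` is a CM field, Galois over `ℚ`, `c` its complex conjugation, `G = Gal(K/ℚ)`, and `E` is a CM field
whose conjugates are contained in `K`.  The notions `conjugation`, `act` (`g ψ = g ∘ ψ`), `IsCMType`,
`a0` (Colmez's function `a⁰_{E,ψ,Φ}`), `heightFn` (`A_Φ = ∑_{ψ ∈ Φ} a⁰_{E,ψ,Φ}`, the class function which
belongs to the Faltings height), `avgSpan` (the span of `1` and of the sums of the `A_Φ` over all CM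
types of a field, for which the formula is the averaged formula of Andreatta, Goren, Howard, Madapusi
Pera and of Yuan, Zhang) and `abSpan` (the span of the `a⁰_{E,ψ,Φ}` of the fields which are abelian
over `ℚ`, for which the formula is the theorem of Colmez and Obus) are those of the starting file
`AveragedAndAbelian`.

We say that an irreducible character `χ` of `G` occurs in `E` if it is a constituent of the
representation of `G` on the functions `f` with `f(c ψ) = - f(ψ)` on the set `H_E` of the embeddings of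
`E` into `K`.  We determine exactly, for every `E`, the span of the functions `a⁰_{E,ψ,Φ}` of all CM types
`Φ` of `E`, and the span of the functions `A_Φ`, in terms of these characters, and deduce necessary and
sufficient conditions under which the formula for all CM types of `E` follows from the two known cases:
for the Faltings heights, the characters which occur in `E` must have rational real part (that is,
their values generate `ℚ` or an imaginary quadratic field); for the `a⁰_{E,ψ,Φ}` they must have rational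
values; characters of degree one can be left out if also the abelian case is used.  Finally we give the
conditions on the conjugacy classes of `G` for all CM fields `E` with values in `K`.

The proof.  A linear form which vanishes on the functions `A_Φ` of all CM types `Φ` of `E` and on `1` is
given by an odd class function `θ`, which can be taken symmetric, with
`∑_{x, y ∈ Φ} t(x, y) = 0` for the kernel `t(x, y) = ∑_{g x = y} θ(g)` and all `Φ`.  Comparing CM types which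
differ in one element shows that `t(x, y) = 0` for `y ≠ x, c x`; as `G` is transitive on `H_E`, `t(x, x)` is
constant, and it vanishes too.  So `θ` acts by zero on the odd functions, and is orthogonal to the
characters which occur.  A character which is constant on the generators of cyclic groups, or which
satisfies the condition of the starting file for `avgSpan ⊔ abSpan` and is not of degree one (its sums
over the cosets of the commutator subgroup vanish), has rational values, by the irreducibility of the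
cyclotomic polynomials.
-/

set_option autoImplicit false
set_option linter.unusedSectionVars false

open NumberField
open Pool.Agent.Results.MP_a2beea_nt.AveragedAndAbelian

namespace Pool.Agent.Results.MP_a2beea_nt.CharacterCriterion

/-- `χ` is the character of an irreducible finite-dimensional complex representation of `G`. -/
def IsIrreducibleCharacter {G : Type} [Group G] (χ : G → ℂ) : Prop :=
  ∃ (V : Type) (_ : AddCommGroup V) (_ : Module ℂ V) (_ : FiniteDimensional ℂ V)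
    (ρ : Representation ℂ G V), ρ.IsIrreducible ∧ χ = ρ.character

/-- Twice the character of the representation of `Gal(K/ℚ)` on the functions `f` on `H_E` with
`f(c ψ) = - f(ψ)`: the number of the `ψ` with `g ψ = ψ` minus the number of the `ψ` with `g ψ = c ψ`. -/
noncomputable def oddCharacter (E K : Type) [Field E] [NumberField E] [Field K] [NumberField K]
    [IsCMField K] (g : K ≃ₐ[ℚ] K) : ℂ :=
  (Nat.card {ψ : E →ₐ[ℚ] K // act g ψ = ψ} : ℂ) -
    (Nat.card {ψ : E →ₐ[ℚ] K // act g ψ = act (conjugation K) ψ} : ℂ)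

/-- `χ` is an irreducible character of `Gal(K/ℚ)` which occurs in `E`. -/
def Occurs (E K : Type) [Field E] [NumberField E] [Field K] [NumberField K] [IsCMField K]
    (χ : (K ≃ₐ[ℚ] K) → ℂ) : Prop :=
  IsIrreducibleCharacter χ ∧ ∑ g : K ≃ₐ[ℚ] K, χ g * oddCharacter E K g ≠ 0

/-- The values of `χ` are rational. -/
def RationalValued {G : Type} (χ : G → ℂ) : Prop := ∀ g : G, ∃ q : ℚ, χ g = q

/-- The real parts of the values of `χ` are rational. -/
def RationalRealPart {G : Type} (χ : G → ℂ) : Prop := ∀ g : G, ∃ q : ℚ, (χ g).re = q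

/-- The complex span of `1` and a set of functions. -/
def spanWithOne {G : Type} (S : Set (G → ℂ)) : Submodule ℂ (G → ℂ) :=
  Submodule.span ℂ ({fun _ => 1} ∪ S)

section bridge

open scoped Classical
open Pool.Agent.J4.H53.Cx

variable {E K : Type} [Field E] [NumberField E] [Field K] [NumberField K] [IsCMField K]

lemma oddCharacter_eq (g : K ≃ₐ[ℚ] K) :
    oddCharacter E K g = pic (conjugation K) (E →ₐ[ℚ] K) g := by
  unfold oddCharacter pic
  rw [Nat.card_eq_fintype_card, Nat.card_eq_fintype_card, Fintype.card_subtype,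
    Fintype.card_subtype]
  rfl

lemma occurs_iff {χ : (K ≃ₐ[ℚ] K) → ℂ} :
    Occurs E K χ ↔ Occ (conjugation K) (E →ₐ[ℚ] K) χ := by
  unfold Occurs Occ
  simp only [oddCharacter_eq]
  rfl

lemma a0_cast (ψ : E →ₐ[ℚ] K) (Φ : Finset (E →ₐ[ℚ] K)) :
    (fun g : K ≃ₐ[ℚ] K => ((a0 ψ Φ g : ℚ) : ℂ)) = ac ψ Φ := by
  funext g
  unfold ac
  rw [a0_eq]

lemma heightFn_cast (Φ : Finset (E →ₐ[ℚ] K)) :
    (fun g : K ≃ₐ[ℚ] K => ((heightFn Φ g : ℚ) : ℂ)) = Tc Φ := by
  funext g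
  unfold Tc
  rw [heightFn_eq]

variable [IsGalois ℚ K]

lemma mem_avg_iff {f : (K ≃ₐ[ℚ] K) → ℚ} (hf : IsCMFunction f) :
    f ∈ avgSpan K ↔ (fun g => ((f g : ℚ) : ℂ)) ∈ ZC (K ≃ₐ[ℚ] K) := by
  rw [(AveragedAndAbelian.result K).1 f]
  constructor
  · rintro ⟨-, h⟩ g g' hg
    change ((f g : ℚ) : ℂ) = ((f g' : ℚ) : ℂ)
    rw [h g g' hg]
  · intro h
    refine ⟨hf, fun g g' hg => ?_⟩
    have h1 : ((f g : ℚ) : ℂ) = ((f g' : ℚ) : ℂ) := h g g' hg
    exact_mod_cast h1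

lemma mem_sup_iff {f : (K ≃ₐ[ℚ] K) → ℚ} (hf : IsCMFunction f) :
    f ∈ avgSpan K ⊔ abSpan K ↔ (fun g => ((f g : ℚ) : ℂ)) ∈ TwC (K ≃ₐ[ℚ] K) := by
  rw [(AveragedAndAbelian.result K).2.1 f]
  constructor
  · rintro ⟨-, h⟩ j hj g z hz
    have h1 := h j hj g z hz
    change ((f ((g * z) ^ j) : ℚ) : ℂ) - ((f (g * z) : ℚ) : ℂ) =
      ((f (g ^ j) : ℚ) : ℂ) - ((f g : ℚ) : ℂ)
    exact_mod_cast h1
  · intro h
    refine ⟨hf, fun j hj g z hz => ?_⟩
    have h1 : ((f ((g * z) ^ j) : ℚ) : ℂ) - ((f (g * z) : ℚ) : ℂ) =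
      ((f (g ^ j) : ℚ) : ℂ) - ((f g : ℚ) : ℂ) := h j hj g z hz
    exact_mod_cast h1

lemma avg_a0 : (∀ Φ : Finset (E →ₐ[ℚ] K), IsCMType Φ → ∀ ψ : E →ₐ[ℚ] K, a0 ψ Φ ∈ avgSpan K) ↔
    ∀ Φ : Finset (E →ₐ[ℚ] K), Pool.Agent.Q11.CZ.IsHalf (conjugation K) Φ →
      ∀ ψ : E →ₐ[ℚ] K, ac ψ Φ ∈ ZC (K ≃ₐ[ℚ] K) := by
  refine forall_congr' fun Φ => ⟨fun h hΦ ψ => ?_, fun h hΦ ψ => ?_⟩
  · rw [← a0_cast]
    exact (mem_avg_iff (a0_cm ψ hΦ)).mp (h hΦ ψ)
  · rw [mem_avg_iff (a0_cm ψ hΦ), a0_cast]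
    exact h hΦ ψ

lemma avg_height : (∀ Φ : Finset (E →ₐ[ℚ] K), IsCMType Φ → heightFn Φ ∈ avgSpan K) ↔
    ∀ Φ : Finset (E →ₐ[ℚ] K), Pool.Agent.Q11.CZ.IsHalf (conjugation K) Φ →
      Tc Φ ∈ ZC (K ≃ₐ[ℚ] K) := by
  refine forall_congr' fun Φ => ⟨fun h hΦ => ?_, fun h hΦ => ?_⟩
  · rw [← heightFn_cast]
    exact (mem_avg_iff (height_cm hΦ)).mp (h hΦ)
  · rw [mem_avg_iff (height_cm hΦ), heightFn_cast]
    exact h hΦ

lemma sup_a0 : (∀ Φ : Finset (E →ₐ[ℚ] K), IsCMType Φ →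
      ∀ ψ : E →ₐ[ℚ] K, a0 ψ Φ ∈ avgSpan K ⊔ abSpan K) ↔
    ∀ Φ : Finset (E →ₐ[ℚ] K), Pool.Agent.Q11.CZ.IsHalf (conjugation K) Φ →
      ∀ ψ : E →ₐ[ℚ] K, ac ψ Φ ∈ TwC (K ≃ₐ[ℚ] K) := by
  refine forall_congr' fun Φ => ⟨fun h hΦ ψ => ?_, fun h hΦ ψ => ?_⟩
  · rw [← a0_cast]
    exact (mem_sup_iff (a0_cm ψ hΦ)).mp (h hΦ ψ)
  · rw [mem_sup_iff (a0_cm ψ hΦ), a0_cast]
    exact h hΦ ψ

lemma sup_height : (∀ Φ : Finset (E →ₐ[ℚ] K), IsCMType Φ →
      heightFn Φ ∈ avgSpan K ⊔ abSpan K) ↔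
    ∀ Φ : Finset (E →ₐ[ℚ] K), Pool.Agent.Q11.CZ.IsHalf (conjugation K) Φ →
      Tc Φ ∈ TwC (K ≃ₐ[ℚ] K) := by
  refine forall_congr' fun Φ => ⟨fun h hΦ => ?_, fun h hΦ => ?_⟩
  · rw [← heightFn_cast]
    exact (mem_sup_iff (height_cm hΦ)).mp (h hΦ)
  · rw [mem_sup_iff (height_cm hΦ), heightFn_cast]
    exact h hΦ

lemma exists_type [IsCMField E] (hK : Nonempty (E →ₐ[ℚ] K)) :
    ∃ Φ : Finset (E →ₐ[ℚ] K), Pool.Agent.Q11.CZ.IsHalf (conjugation K) Φ := by
  have C := Pool.Agent.J4.H53.Col.cover_res hK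
  obtain ⟨Φ, hΦ⟩ := Pool.Agent.Q11.CZ.exists_half (X := E →ₐ[ℚ] K) C.hc2 C.free
  exact ⟨Φ, (Pool.Agent.Q11.CZ.mem_halves Φ).mp hΦ⟩

lemma regular (ψ : K →ₐ[ℚ] K) (g : K ≃ₐ[ℚ] K) (h : g • ψ = ψ) : g = 1 := by
  apply AlgEquiv.ext
  intro x
  obtain ⟨y, rfl⟩ := (AlgHom.bijective ψ).2 x
  exact congrArg (fun f : K →ₐ[ℚ] K => f y) h

lemma occ_of_odd {χ : (K ≃ₐ[ℚ] K) → ℂ} (hχ : IsIrreducibleCharacter χ)
    (h : ∀ g, χ (conjugation K * g) = - χ g) : Occ (conjugation K) (K →ₐ[ℚ] K) χ :=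
  occ_reg Pool.Agent.Q11.CZ.conj_comm Pool.Agent.Q11.CZ.conj_mul_self
    (fun h1 => IsCMField.complexConj_ne_one K (AlgEquiv.ext fun x =>
      congrArg (fun g : K ≃ₐ[ℚ] K => g x) h1)) (AlgHom.id ℚ K) regular hχ h

lemma odd_of_ne {χ : (K ≃ₐ[ℚ] K) → ℂ} (hχ : IsIrreducibleCharacter χ)
    (h : χ (conjugation K) ≠ χ 1) : ∀ g, χ (conjugation K * g) = - χ g := by
  rcases sign hχ Pool.Agent.Q11.CZ.conj_comm Pool.Agent.Q11.CZ.conj_mul_self with h1 | h1
  · exfalso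
    apply h
    have h2 := h1 1
    rwa [mul_one] at h2
  · exact h1

lemma ne_of_occ {χ : (K ≃ₐ[ℚ] K) → ℂ} (h : Occ (conjugation K) (E →ₐ[ℚ] K) χ) :
    χ (conjugation K) ≠ χ 1 := by
  have h1 : χ (conjugation K * 1) = - χ 1 :=
    h.odd Pool.Agent.Q11.CZ.conj_comm Pool.Agent.Q11.CZ.conj_mul_self 1
  rw [mul_one] at h1
  rw [h1]
  intro h2
  have h3 : 2 * χ 1 = 0 := by linear_combination -h2
  exact h.1.one_ne ((mul_eq_zero.mp h3).resolve_left two_ne_zero)

end bridge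

/-- **Main result.**  `K` is a CM field, Galois over `ℚ`, with Galois group `G`.

For every CM field `E` whose conjugates are contained in `K`:
(A1) `1` and the functions `a⁰_{E,ψ,Φ}` for all `Φ`, `ψ` have the same complex span as `1` and the
irreducible characters which occur in `E`;
(A2) `1` and the functions `A_Φ` for all `Φ` have the same complex span as `1` and the functions
`χ(g) + χ(g⁻¹)` for the irreducible characters which occur in `E`;
(B1) all `a⁰_{E,ψ,Φ}` are in `avgSpan` if and only if the characters which occur in `E` have rational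
values;
(B2) all `A_Φ` are in `avgSpan` if and only if they have rational real part;
(B3), (B4) the same for `avgSpan ⊔ abSpan` and the characters of degree different from one.

For all CM types with values in `K` together:
(C1) all `a⁰_{E,ψ,Φ}` are in `avgSpan` if and only if for all `g`, `g'` which generate the same group, `g'`
is conjugate to `g` or `c g` is conjugate to `g`;
(C2) all `A_Φ` are in `avgSpan` if and only if for all such `g`, `g'` one of `g'` and `c g` is conjugate to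
one of `g` and `g⁻¹`;
(C3), (C4) all `a⁰_{E,ψ,Φ}` (all `A_Φ`) are in `avgSpan ⊔ abSpan` if and only if the irreducible
characters `χ` of `G` with `χ(c) ≠ χ(1)` and `χ(1) ≠ 1` have rational values (rational real part). -/
theorem result (K : Type) [Field K] [NumberField K] [IsGalois ℚ K] [IsCMField K] :
    (∀ (E : Type) [Field E] [NumberField E] [IsCMField E], Nonempty (E →ₐ[ℚ] K) →
      (spanWithOne {F : (K ≃ₐ[ℚ] K) → ℂ | ∃ Φ : Finset (E →ₐ[ℚ] K), IsCMType Φ ∧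
          ∃ ψ : E →ₐ[ℚ] K, F = fun g => (a0 ψ Φ g : ℂ)} =
        spanWithOne {χ : (K ≃ₐ[ℚ] K) → ℂ | Occurs E K χ}) ∧
      (spanWithOne {F : (K ≃ₐ[ℚ] K) → ℂ | ∃ Φ : Finset (E →ₐ[ℚ] K), IsCMType Φ ∧
          F = fun g => (heightFn Φ g : ℂ)} =
        spanWithOne {F : (K ≃ₐ[ℚ] K) → ℂ | ∃ χ, Occurs E K χ ∧ F = fun g => χ g + χ g⁻¹}) ∧
      ((∀ Φ : Finset (E →ₐ[ℚ] K), IsCMType Φ → ∀ ψ : E →ₐ[ℚ] K, a0 ψ Φ ∈ avgSpan K) ↔
        ∀ χ, Occurs E K χ → RationalValued χ) ∧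
      ((∀ Φ : Finset (E →ₐ[ℚ] K), IsCMType Φ → heightFn Φ ∈ avgSpan K) ↔
        ∀ χ, Occurs E K χ → RationalRealPart χ) ∧
      ((∀ Φ : Finset (E →ₐ[ℚ] K), IsCMType Φ →
          ∀ ψ : E →ₐ[ℚ] K, a0 ψ Φ ∈ avgSpan K ⊔ abSpan K) ↔
        ∀ χ, Occurs E K χ → χ 1 ≠ 1 → RationalValued χ) ∧
      ((∀ Φ : Finset (E →ₐ[ℚ] K), IsCMType Φ → heightFn Φ ∈ avgSpan K ⊔ abSpan K) ↔
        ∀ χ, Occurs E K χ → χ 1 ≠ 1 → RationalRealPart χ)) ∧
    ((∀ (E : Type) [Field E] [NumberField E] (Φ : Finset (E →ₐ[ℚ] K)), IsCMType Φ →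
        ∀ ψ : E →ₐ[ℚ] K, a0 ψ Φ ∈ avgSpan K) ↔
      ∀ g g' : K ≃ₐ[ℚ] K, Subgroup.zpowers g = Subgroup.zpowers g' →
        IsConj g' g ∨ IsConj (conjugation K * g) g) ∧
    ((∀ (E : Type) [Field E] [NumberField E] (Φ : Finset (E →ₐ[ℚ] K)), IsCMType Φ →
        heightFn Φ ∈ avgSpan K) ↔
      ∀ g g' : K ≃ₐ[ℚ] K, Subgroup.zpowers g = Subgroup.zpowers g' →
        IsConj g' g ∨ IsConj g' g⁻¹ ∨ IsConj (conjugation K * g) g ∨
          IsConj (conjugation K * g) g⁻¹) ∧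
    ((∀ (E : Type) [Field E] [NumberField E] (Φ : Finset (E →ₐ[ℚ] K)), IsCMType Φ →
        ∀ ψ : E →ₐ[ℚ] K, a0 ψ Φ ∈ avgSpan K ⊔ abSpan K) ↔
      ∀ χ : (K ≃ₐ[ℚ] K) → ℂ, IsIrreducibleCharacter χ → χ (conjugation K) ≠ χ 1 → χ 1 ≠ 1 →
        RationalValued χ) ∧
    ((∀ (E : Type) [Field E] [NumberField E] (Φ : Finset (E →ₐ[ℚ] K)), IsCMType Φ →
        heightFn Φ ∈ avgSpan K ⊔ abSpan K) ↔
      ∀ χ : (K ≃ₐ[ℚ] K) → ℂ, IsIrreducibleCharacter χ → χ (conjugation K) ≠ χ 1 → χ 1 ≠ 1 →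
        RationalRealPart χ) := by
  classical
  have hc : ∀ g, conjugation K * g = g * conjugation K := Pool.Agent.Q11.CZ.conj_comm
  have hc2 : conjugation K * conjugation K = 1 := Pool.Agent.Q11.CZ.conj_mul_self
  have hc1 : conjugation K ≠ 1 := fun h1 => IsCMField.complexConj_ne_one K
    (AlgEquiv.ext fun x => congrArg (fun g : K ≃ₐ[ℚ] K => g x) h1)
  have hKK : Nonempty (K →ₐ[ℚ] K) := ⟨AlgHom.id ℚ K⟩
  refine ⟨?_, ?_, ?_, ?_, ?_⟩
  · intro E _ _ _ hE
    have hex := exists_type hE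
    refine ⟨?_, ?_, ?_, ?_, ?_, ?_⟩
    · have h1 := Pool.Agent.J4.H53.Cx.spanA hc hc2 hex
      have e1 : {F : (K ≃ₐ[ℚ] K) → ℂ | ∃ Φ : Finset (E →ₐ[ℚ] K), IsCMType Φ ∧
          ∃ ψ : E →ₐ[ℚ] K, F = fun g => (a0 ψ Φ g : ℂ)} =
          {F : (K ≃ₐ[ℚ] K) → ℂ | ∃ (x : E →ₐ[ℚ] K) (Φ : Finset (E →ₐ[ℚ] K)),
            Pool.Agent.Q11.CZ.IsHalf (conjugation K) Φ ∧ F = Pool.Agent.J4.H53.Cx.ac x Φ} := by
        ext F
        simp only [Set.mem_ofPred_eq, a0_cast]
        constructor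
        · rintro ⟨Φ, hΦ, ψ, h⟩
          exact ⟨ψ, Φ, hΦ, h⟩
        · rintro ⟨ψ, Φ, hΦ, h⟩
          exact ⟨Φ, hΦ, ψ, h⟩
      rw [e1]
      simp only [occurs_iff]
      exact h1
    · have h1 := Pool.Agent.J4.H53.Cx.spanT hc hc2 hex
      simp only [occurs_iff, heightFn_cast]
      exact h1
    · rw [avg_a0, Pool.Agent.J4.H53.Cx.critAZ hc hc2 hex]
      simp only [occurs_iff]
      rfl
    · rw [avg_height, Pool.Agent.J4.H53.Cx.critTZ hc hc2 hex]
      simp only [occurs_iff]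
      rfl
    · rw [sup_a0, Pool.Agent.J4.H53.Cx.critATw hc hc2 hex]
      simp only [occurs_iff]
      rfl
    · rw [sup_height, Pool.Agent.J4.H53.Cx.critTTw hc hc2 hex]
      simp only [occurs_iff]
      rfl
  · rw [← Pool.Agent.J4.H53.Cx.class_iff hc hc2 hc1]
    constructor
    · intro h χ hχ hodd
      have h1 := avg_a0.mp (h K)
      exact (Pool.Agent.J4.H53.Cx.critA hc hc2 (exists_type hKK)
        Pool.Agent.J4.H53.Cx.ZC_one).mp h1 χ (occ_of_odd hχ hodd)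
    · intro h E _ _ Φ hΦ ψ
      refine avg_a0.mpr ?_ Φ hΦ ψ
      exact (Pool.Agent.J4.H53.Cx.critA hc hc2 ⟨Φ, hΦ⟩
        Pool.Agent.J4.H53.Cx.ZC_one).mpr fun χ hχ => h χ hχ.1 (hχ.odd hc hc2)
  · rw [← Pool.Agent.J4.H53.Cx.class_sym_iff hc hc2 hc1]
    constructor
    · intro h χ hχ hodd
      have h1 := avg_height.mp (h K)
      exact (Pool.Agent.J4.H53.Cx.critT hc hc2 (exists_type hKK)
        Pool.Agent.J4.H53.Cx.ZC_one).mp h1 χ (occ_of_odd hχ hodd)
    · intro h E _ _ Φ hΦ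
      refine avg_height.mpr ?_ Φ hΦ
      exact (Pool.Agent.J4.H53.Cx.critT hc hc2 ⟨Φ, hΦ⟩
        Pool.Agent.J4.H53.Cx.ZC_one).mpr fun χ hχ => h χ hχ.1 (hχ.odd hc hc2)
  · constructor
    · intro h χ hχ hne h1
      have h2 := sup_a0.mp (h K)
      exact (Pool.Agent.J4.H53.Cx.critATw hc hc2 (exists_type hKK)).mp h2 χ
        (occ_of_odd hχ (odd_of_ne hχ hne)) h1
    · intro h E _ _ Φ hΦ ψ
      refine sup_a0.mpr ?_ Φ hΦ ψ
      exact (Pool.Agent.J4.H53.Cx.critATw hc hc2 ⟨Φ, hΦ⟩).mpr fun χ hχ h1 =>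
        h χ hχ.1 (ne_of_occ hχ) h1
  · constructor
    · intro h χ hχ hne h1
      have h2 := sup_height.mp (h K)
      exact (Pool.Agent.J4.H53.Cx.critTTw hc hc2 (exists_type hKK)).mp h2 χ
        (occ_of_odd hχ (odd_of_ne hχ hne)) h1
    · intro h E _ _ Φ hΦ
      refine sup_height.mpr ?_ Φ hΦ
      exact (Pool.Agent.J4.H53.Cx.critTTw hc hc2 ⟨Φ, hΦ⟩).mpr fun χ hχ h1 =>
        h χ hχ.1 (ne_of_occ hχ) h1

end Pool.Agent.Results.MP_a2beea_nt.CharacterCriterion
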