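import Pool.Agent.J4.H53.Col.TwoReal
import Pool.Agent.J4.H53.Col.AltResult

/-!
# Colmez's product formula for doubly transitive maximal real subfields

`E` is a CM field, `E⁺` its maximal real subfield, `n = [E⁺ : ℚ]`, and `K` a CM field, Galois over `ℚ`,
which contains the conjugates of `E`.  The notions `conjugation`, `act`, `IsCMType`, `a0` (Colmez's
function `a⁰_{E,ψ,Φ}`), `heightFn` (`A_Φ = ∑_{ψ ∈ Φ} a⁰_{E,ψ,Φ}`) and `avgSpan` (the span of `1` and of the
sums of the `A_Φ` over all CM types of a field, for which the formula is the averaged formula of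
Andreatta, Goren, Howard, Madapusi Pera and of Yuan, Zhang) are those of the starting file
`AveragedAndAbelian`.

Theorem.  Suppose that the Galois group acts doubly transitively on the `n` embeddings of `E⁺`.
(1) If `n` is odd, or if `n ≥ 5` and every even permutation of the `n` embeddings is induced by the Galois
group (so for the generic totally real fields `E⁺`), then `a⁰_{E,ψ,Φ}` is in `avgSpan` for all CM types `Φ`
of `E` and all `ψ`.
(2) If `n` is not congruent to `2` modulo `4`, or `n - 1` is a square, then `A_Φ` is in `avgSpan` for all CM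
types `Φ` of `E`.

There is no condition on the CM extension `E` of `E⁺`.  (For `n ≥ 4` the group of the even permutations is
doubly transitive.)  The conditions are necessary in this generality: for `n = 4` the field with Galois group `SL₂(𝔽₃)` has functions `a⁰_{E,ψ,Φ}` outside of
`avgSpan`, and for `n = 6` the CM field with the group of the icosahedron (`A₅ × {1, c}` acting on the
twelve vertices) has functions `A_Φ` outside of it.

The proof.  Call embeddings `x`, `y` of `E` with different restrictions to `E⁺` linked if no element of
`G = Gal(K/ℚ)` fixes `x` and maps `y` to `c y`.  If there is no linked pair, the numbers of conjugates of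
`g` which map `x` to `y` and to `c y` are equal.  Otherwise the signs of the pairs in the orbit of `(x, y)`
form a matrix `S` with entries `±1` outside of the diagonal, which commutes with the signed permutations
of `G`, is symmetric or skew, and satisfies `S² = a S ± (n - 1)` (a regular two-graph).  If `S` is skew,
then `a = 0`, which requires even `n`, and the contributions of `(x, y)` and `(y, x)` to `A_Φ` cancel.  If
`S` is symmetric and `a² + 4 (n - 1)` is a square, `S` has integral eigenvalues, and modulo almost every
prime `p` one has `S ^ p = S`; so `tr(S g ^ p)` is congruent to `tr((S g) ^ p)` and to `tr(S g)`, and by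
Dirichlet's theorem the class function `tr(S g)` is constant on the generators of cyclic groups.  If
`a² + 4 (n - 1)` is not a square, the two eigenvalues of `S` have the same multiplicity, so `a = 0` and `S`
is a symmetric conference matrix, which requires `n` congruent to `2` modulo `4` and `n - 1` no square.

For the even permutations: if there is a linked pair, all pairs are linked, an element which fixes the
embeddings of `E⁺` acts as `1` or `c`, and a cycle `(i j k)` has a lift to `G` whose cube is trivial on the
embeddings of `E`; for embeddings `x` over `i` and `y` over `j` the relation that the lift of `(i j k)` maps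
`x` to `y` does not depend on `k`, because a fifth index exists.  It is an equivalence relation, invariant
under `G`, with two classes, exchanged by `c`, so `E` contains an imaginary quadratic field.
-/

set_option autoImplicit false

open NumberField
open Pool.Agent.Results.MP_a2beea_nt.AveragedAndAbelian

namespace Pool.Agent.Results.MP_a2beea_nt.DoublyTransitive

/-- `Gal(K/ℚ)` acts doubly transitively on the embeddings of `F` into `K`. -/
def IsDoublyTransitive (F K : Type) [Field F] [NumberField F] [Field K] [NumberField K] : Prop :=
  ∀ a b a' b' : F →ₐ[ℚ] K, a ≠ b → a' ≠ b' → ∃ g : K ≃ₐ[ℚ] K, act g a = a' ∧ act g b = b'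

open scoped Classical in
/-- Every even permutation of the embeddings of `F` into `K` is induced by an element of `Gal(K/ℚ)`. -/
def InducesEvenPermutations (F K : Type) [Field F] [NumberField F] [Field K] [NumberField K] : Prop :=
  ∀ σ ∈ alternatingGroup (F →ₐ[ℚ] K), ∃ g : K ≃ₐ[ℚ] K, ∀ a, act g a = σ a

/-- **Main result.** -/
theorem result (E : Type) [Field E] [NumberField E] [IsCMField E]
    (K : Type) [Field K] [NumberField K] [IsGalois ℚ K] [IsCMField K]
    (hK : Nonempty (E →ₐ[ℚ] K)) (hT : IsDoublyTransitive (maximalRealSubfield E) K) :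
    (Odd (Module.finrank ℚ (maximalRealSubfield E)) ∨
        5 ≤ Module.finrank ℚ (maximalRealSubfield E) ∧
          InducesEvenPermutations (maximalRealSubfield E) K →
      ∀ Φ : Finset (E →ₐ[ℚ] K), IsCMType Φ → ∀ ψ : E →ₐ[ℚ] K, a0 ψ Φ ∈ avgSpan K) ∧
    (Module.finrank ℚ (maximalRealSubfield E) % 4 ≠ 2 ∨
        IsSquare (Module.finrank ℚ (maximalRealSubfield E) - 1) →
      ∀ Φ : Finset (E →ₐ[ℚ] K), IsCMType Φ → heightFn Φ ∈ avgSpan K) := by
  classical
  have C := Pool.Agent.J4.H53.Col.cover_res hK
  have hne : Nonempty (maximalRealSubfield E →ₐ[ℚ] K) := by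
    obtain ⟨x⟩ := hK
    exact ⟨Pool.Agent.J4.H53.Col.res x⟩
  have hcard : Fintype.card (maximalRealSubfield E →ₐ[ℚ] K) =
      Module.finrank ℚ (maximalRealSubfield E) :=
    Pool.Agent.J4.H53.Col.card_emb (maximalRealSubfield E) hne
  have hTT : Pool.Agent.J4.H53.Col.TT (K ≃ₐ[ℚ] K) (maximalRealSubfield E →ₐ[ℚ] K) := hT
  constructor
  · rintro (hn | ⟨hn, hA⟩) Φ hΦ ψ
    · rw [avgSpan_eq, Pool.Agent.Q11.CZ.mem_avgSpan_iff]
      refine ⟨(a0_cm ψ hΦ).1, (a0_cm ψ hΦ).2, ?_⟩
      rw [a0_eq]
      refine Pool.Agent.J4.H53.Col.zinv_a0_of C.hc C.hc2 (isHalf hΦ) (fun y g g' hgg => ?_)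
      exact C.df_odd hTT (by rw [hcard]; exact hn) ψ y g g' hgg
    · exact Pool.Agent.J4.H53.Col.AltResult.result E hn K hK hA Φ hΦ ψ
  · intro hn Φ hΦ
    rw [avgSpan_eq, Pool.Agent.Q11.CZ.mem_avgSpan_iff]
    refine ⟨(height_cm hΦ).1, (height_cm hΦ).2, ?_⟩
    rw [heightFn_eq]
    refine Pool.Agent.J4.H53.Col.zinv_T_of C.hc C.hc2 (isHalf hΦ) (fun x y g g' hgg => ?_)
    exact C.df_height hTT (by rw [hcard]; exact hn) x y g g' hgg

end Pool.Agent.Results.MP_a2beea_nt.DoublyTransitive
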