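import Pool.Agent.J4.H53.Col.OctMain

/-!
# Colmez's product formula for the heights of the CM abelian fourfolds

`E` is a CM field of degree `8` and `K` its Galois closure (a CM field).  The notions `conjugation`,
`act`, `IsCMType`, `a0` (Colmez's function `a⁰_{E,ψ,Φ}`), `heightFn` (`A_Φ = ∑_{ψ ∈ Φ} a⁰_{E,ψ,Φ}`, the
function of the Faltings height of the abelian varieties of CM type `(E, Φ)`), `avgSpan` (the span of `1`
and of the sums of the `A_Φ` over all CM types of a field, for which the formula is the averaged formula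
of Andreatta, Goren, Howard, Madapusi Pera and of Yuan, Zhang) and `abSpan` (the span of the
`a⁰_{E,ψ,Φ}` of the abelian fields) are those of the starting file `AveragedAndAbelian`.

(1) `A_Φ` is in the span of `avgSpan` and `abSpan` for all CM types `Φ` of `E` if and only if the Galois
group of `K` over `ℚ` is not the dihedral group of order `16`.  (So the formula for the Faltings heights
holds for all CM abelian fourfolds, with the possible exception of this group; in lower dimension the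
Galois closure satisfies the condition (5) of the starting file.)
(2) If the group of `K` is neither abelian nor the dihedral group of order `16`, the functions `A_Φ` are
in `avgSpan`.
(3) If the group of `K` is the dihedral group of order `16`, then `A_Φ` is in this span for none of the
`16` CM types, and for any two CM types `Φ`, `Φ'` of `E` the difference or the sum of `A_Φ` and `A_Φ'` is
in `avgSpan`: the formula for the heights holds for all the CM types of `E` if it holds for one of them.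

The proof.  The group `G` of `K` is a group of signed permutations of four points which contains `c`, and
`g ^ 4 = 1`, `g ^ 6 = 1` or `g ^ 4 = c` for every `g` in `G`.  The value `A_Φ(g)` is the average over the
CM types `η Φ` of the number of the `ψ` in `η Φ` with `g ψ` in `η Φ`.  It is the same at `g` and `g⁻¹`, and
`A_Φ(g) + A_Φ(c g) = 4`; so only the elements `h` with `h ^ 4 = c` matter, and for these `A_Φ` has the
required values if `h` is conjugate to `h ^ 3` or `h ^ 5`.  Suppose that this is not the case.  Such an `h`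
permutes the eight embeddings cyclically.  An element `k` of `G` which fixes an embedding is one of `48`
signed permutations, and for all but two of them an explicit word in `h` and `k` conjugates `h` to `h ^ 3`
or `h ^ 5`; the two are the identity and the inversion, so that `G` is generated by `h` or is dihedral.
In the dihedral case the class of `h` is `{h, h⁻¹}`, and the number above is odd.
-/

set_option autoImplicit false

open NumberField
open Pool.Agent.Results.MP_a2beea_nt.AveragedAndAbelian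

namespace Pool.Agent.Results.MP_a2beea_nt.OcticFields

open scoped Classical in
/-- **Main result.** -/
theorem result (E : Type) [Field E] [NumberField E] [IsCMField E] (hE : Module.finrank ℚ E = 8)
    (K : Type) [Field K] [NumberField K] [IsGalois ℚ K] [IsCMField K] [IsNormalClosure ℚ E K] :
    ((∀ Φ : Finset (E →ₐ[ℚ] K), IsCMType Φ → heightFn Φ ∈ avgSpan K ⊔ abSpan K) ↔
      IsEmpty ((K ≃ₐ[ℚ] K) ≃* DihedralGroup 8)) ∧
    ((∃ g h : K ≃ₐ[ℚ] K, g * h ≠ h * g) → IsEmpty ((K ≃ₐ[ℚ] K) ≃* DihedralGroup 8) →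
      ∀ Φ : Finset (E →ₐ[ℚ] K), IsCMType Φ → heightFn Φ ∈ avgSpan K) ∧
    (Nonempty ((K ≃ₐ[ℚ] K) ≃* DihedralGroup 8) →
      (∀ Φ : Finset (E →ₐ[ℚ] K), IsCMType Φ → heightFn Φ ∉ avgSpan K ⊔ abSpan K) ∧
      ∀ Φ Φ' : Finset (E →ₐ[ℚ] K), IsCMType Φ → IsCMType Φ' →
        heightFn Φ - heightFn Φ' ∈ avgSpan K ∨ heightFn Φ + heightFn Φ' ∈ avgSpan K) := by
  set c : K ≃ₐ[ℚ] K := conjugation K with hcdef
  have hc : ∀ g : K ≃ₐ[ℚ] K, c * g = g * c := Pool.Agent.Q11.CZ.conj_comm
  have hc2 : c * c = 1 := Pool.Agent.Q11.CZ.conj_mul_self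
  have hc1 : c ≠ 1 := Pool.Agent.N770.CP.conj_ne_one
  have hfree : ∀ x : E →ₐ[ℚ] K, c • x ≠ x := Pool.Agent.N770.CP.conj_free
  have hX : Fintype.card (E →ₐ[ℚ] K) = 8 := by
    rw [AlgHom.card_of_splits ℚ E K IsNormalClosure.splits, hE]
  have hfaith : FaithfulSMul (K ≃ₐ[ℚ] K) (E →ₐ[ℚ] K) := by
    refine ⟨fun {g h} hgh => ?_⟩
    have h0 : ∀ x : E →ₐ[ℚ] K, (h⁻¹ * g) • x = x := by
      intro x
      rw [mul_smul, hgh x, inv_smul_smul]
    have h1 : (⨆ f : E →ₐ[ℚ] K, f.fieldRange) ≤
        IntermediateField.fixedField (Subgroup.zpowers (h⁻¹ * g)) := by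
      refine iSup_le (fun f => ?_)
      rw [IntermediateField.le_iff_le, Subgroup.zpowers_le, IntermediateField.mem_fixingSubgroup_iff]
      rintro _ ⟨y, rfl⟩
      exact congrArg (fun f : E →ₐ[ℚ] K => f y) (h0 f)
    have h2 : (⨆ f : E →ₐ[ℚ] K, f.fieldRange) = ⊤ := by
      have := (Algebra.IsAlgebraic.isNormalClosure_iff (F := ℚ) (K := E) (L := K)).mp inferInstance
      exact this.2
    rw [h2, IntermediateField.le_iff_le, Subgroup.zpowers_le,
      IntermediateField.fixingSubgroup_top, Subgroup.mem_bot, inv_mul_eq_one] at h1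
    exact h1.symm
  have havg : ∀ f : (K ≃ₐ[ℚ] K) → ℚ, f ∈ avgSpan K ↔ Pool.Agent.Q11.CZ.CondA f := by
    intro f
    rw [avgSpan_eq, Pool.Agent.Q11.CZ.mem_avgSpan_iff]
  have hsup : ∀ f : (K ≃ₐ[ℚ] K) → ℚ, f ∈ avgSpan K ⊔ abSpan K ↔ Pool.Agent.Q11.CZ.CondB f := by
    intro f
    rw [avgSpan_eq, abSpan_eq, Pool.Agent.Q11.CZ.mem_sup_iff]
  have hcm : ∀ Φ : Finset (E →ₐ[ℚ] K), IsCMType Φ →
      Pool.Agent.Q11.CZ.IsClass (heightFn Φ) ∧
        ∃ s : ℚ, ∀ g, heightFn Φ g + heightFn Φ (Pool.Agent.Q11.CZ.conj K * g) = s := by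
    intro Φ hΦ
    exact height_cm hΦ
  -- the dihedral case
  have hdi : Nonempty ((K ≃ₐ[ℚ] K) ≃* DihedralGroup 8) →
      (∀ Φ : Finset (E →ₐ[ℚ] K), IsCMType Φ → heightFn Φ ∉ avgSpan K ⊔ abSpan K) ∧
      ∀ Φ Φ' : Finset (E →ₐ[ℚ] K), IsCMType Φ → IsCMType Φ' →
        heightFn Φ - heightFn Φ' ∈ avgSpan K ∨ heightFn Φ + heightFn Φ' ∈ avgSpan K := by
    rintro ⟨φ⟩
    obtain ⟨h, t, hh, ht2, hth, hall⟩ := Pool.Agent.J4.H53.Col.gen_of_iso hc hc1 φ
    have hcard : Nat.card (K ≃ₐ[ℚ] K) = 16 := by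
      rw [Nat.card_congr φ.toEquiv, DihedralGroup.nat_card]
    constructor
    · intro Φ hΦ hmem
      rw [hsup, heightFn_eq] at hmem
      exact Pool.Agent.J4.H53.Col.dihedral_not_twist hc hc2 hfree hX hh ht2 hth hall hcard
        (isHalf hΦ) hmem.2.2
    · intro Φ Φ' hΦ hΦ'
      obtain ⟨a1, s, a2⟩ := hcm Φ hΦ
      obtain ⟨b1, s', b2⟩ := hcm Φ' hΦ'
      rcases Pool.Agent.J4.H53.Col.dihedral_pair hc hc2 hfree hX hc1 hh ht2 hth hall (isHalf hΦ)
        (isHalf hΦ') with h1 | h1
      · left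
        rw [havg]
        refine ⟨fun g k => ?_, ⟨s - s', fun g => ?_⟩, ?_⟩
        · simp only [Pi.sub_apply, a1 g k, b1 g k]
        · simp only [Pi.sub_apply]
          linarith [a2 g, b2 g]
        · rw [heightFn_eq, heightFn_eq]
          exact h1
      · right
        rw [havg]
        refine ⟨fun g k => ?_, ⟨s + s', fun g => ?_⟩, ?_⟩
        · simp only [Pi.add_apply, a1 g k, b1 g k]
        · simp only [Pi.add_apply]
          linarith [a2 g, b2 g]
        · rw [heightFn_eq, heightFn_eq]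
          exact h1
  -- the other groups
  have hnon : (∃ g h : K ≃ₐ[ℚ] K, g * h ≠ h * g) → IsEmpty ((K ≃ₐ[ℚ] K) ≃* DihedralGroup 8) →
      ∀ Φ : Finset (E →ₐ[ℚ] K), IsCMType Φ → heightFn Φ ∈ avgSpan K := by
    intro hab hemp Φ hΦ
    rw [havg]
    refine ⟨(hcm Φ hΦ).1, (hcm Φ hΦ).2, ?_⟩
    rw [heightFn_eq]
    refine Pool.Agent.J4.H53.Col.zinv_oct hc hc2 hfree hX hc1 ?_ (isHalf hΦ)
    intro h hh
    rcases Pool.Agent.J4.H53.Col.trichotomy hc hc2 hfree hX hh with h1 | h1 | ⟨t, h1, h2, h3, h4⟩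
    · exact h1
    · exfalso
      obtain ⟨g, k, hgk⟩ := hab
      apply hgk
      obtain ⟨i, rfl⟩ := h1 g
      obtain ⟨j, rfl⟩ := h1 k
      rw [← pow_add, ← pow_add, add_comm]
    · exfalso
      obtain ⟨φ⟩ := Pool.Agent.J4.H53.Col.iso_of_gen (Pool.Agent.J4.H53.Col.pow8 hc2 hh)
        (by rw [hh]; exact hc1) h1 h2 h3 h4
      exact hemp.false φ
  refine ⟨⟨?_, ?_⟩, hnon, hdi⟩
  · intro h
    rw [← not_nonempty_iff]
    intro hne
    -- there is a CM type
    obtain ⟨Φ, hΦ⟩ := Pool.Agent.Q11.CZ.exists_half (X := E →ₐ[ℚ] K) hc2 hfree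
    rw [Pool.Agent.Q11.CZ.mem_halves] at hΦ
    exact (hdi hne).1 Φ hΦ (h Φ hΦ)
  · intro hemp Φ hΦ
    by_cases hab : ∃ g h : K ≃ₐ[ℚ] K, g * h ≠ h * g
    · exact Submodule.mem_sup_left (hnon hab hemp Φ hΦ)
    · push Not at hab
      rw [hsup]
      refine ⟨(hcm Φ hΦ).1, (hcm Φ hΦ).2, ?_⟩
      intro j _ g z hz
      have hbot : commutator (K ≃ₐ[ℚ] K) = ⊥ := by
        rw [commutator_def, Subgroup.commutator_eq_bot_iff_le_centralizer]
        intro x _
        rw [Subgroup.mem_centralizer_iff]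
        intro y _
        exact hab y x
      rw [hbot, Subgroup.mem_bot] at hz
      rw [hz, mul_one]

end Pool.Agent.Results.MP_a2beea_nt.OcticFields
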