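import Pool.Agent.J4.H53.Col.PrimeField

/-!
# Colmez's product formula for CM fields whose maximal real subfield has prime degree

`E` is a CM field, `E⁺` its maximal real subfield, of prime degree `p` over `ℚ`, and `K` a CM field,
Galois over `ℚ`, which contains the conjugates of `E`.  The notions `conjugation`, `act`, `IsCMType`,
`a0` (Colmez's function `a⁰_{E,ψ,Φ}`), `heightFn` (`A_Φ = ∑_{ψ ∈ Φ} a⁰_{E,ψ,Φ}`), `avgSpan` (the span of
`1` and of the sums of the `A_Φ` over all CM types of a field, for which the formula is the averaged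
formula of Andreatta, Goren, Howard, Madapusi Pera and of Yuan, Zhang) and `abSpan` (the span of the
`a⁰_{E,ψ,Φ}` of the abelian fields) are those of the starting file `AveragedAndAbelian`.  The starting
file `FewAutomorphisms` treats the case in which `E⁺` is Galois over `ℚ`.

We determine exactly for which of the other fields the formula follows from the averaged and the abelian
case.
(1) `A_Φ` is in the span of `avgSpan` and `abSpan` for all CM types `Φ` of `E` if and only if `E⁺` is
Galois over `ℚ`, or `E` has no subfield of degree two, or the Galois group acts transitively on the sets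
of two embeddings of `E⁺`.
(2) `a⁰_{E,ψ,Φ}` is in this span for all `Φ` and `ψ` if and only if `E⁺` is Galois over `ℚ`, or `E` has
no subfield of degree two, or the Galois group acts transitively on the ordered pairs of embeddings.
(3) If `E⁺` is not Galois over `ℚ`, the functions are in these cases even in `avgSpan`.

So the formula holds for all CM fields with `[E⁺ : ℚ]` prime which contain no imaginary quadratic field,
and for all fields `E = k E⁺`, `k` imaginary quadratic, if the group of `E⁺` is doubly transitive; by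
Burnside's theorem the remaining fields are the `k E⁺`, where the group of `E⁺` is a proper noncyclic
subgroup of the affine group of `𝔽_p` (for the heights and `p` congruent to `3` modulo `4`: and the group
of its multipliers is not the group of all squares).

The proof.  Let `p` be odd.  Two embeddings `x`, `y` of `E` with different restrictions to `E⁺` are linked
if no element of `G` fixes `x` and maps `y` to `c y`.  Suppose that there is a linked pair.  An element of
order `p` labels the embeddings by `ZMod p` and signs, and the signs of the pairs in the orbit of the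
linked pair form a nonconstant circulant matrix which commutes with the signed permutations of `G`.  Since
the `p`-th cyclotomic polynomial is irreducible, the eigenspace of the row sum consists of the constant
vectors; so `G` maps the constant vector to its multiples and `E` has an imaginary quadratic subfield.  If
there is no linked pair, all the differences of numbers of conjugates vanish.  If there is an imaginary
quadratic subfield, transitivity determines the numbers in terms of the numbers of fixed points.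
Conversely, if `E⁺` is not Galois, the commutator subgroup contains an element `z` which permutes the
embeddings of `E⁺` cyclically; the condition on the functions implies that for any two embeddings `x`, `y`
the number of the conjugates of `z ^ j` which map `x` to `y` does not depend on `j`, and so is positive.
-/

set_option autoImplicit false

open NumberField
open Pool.Agent.Results.MP_a2beea_nt.AveragedAndAbelian

namespace Pool.Agent.Results.MP_a2beea_nt.PrimeDegree

/-- `Gal(K/ℚ)` acts transitively on the sets of two embeddings of `F` into `K`. -/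
def TransitiveOnPairs (F K : Type) [Field F] [NumberField F] [Field K] [NumberField K] : Prop :=
  ∀ a b a' b' : F →ₐ[ℚ] K, a ≠ b → a' ≠ b' → ∃ g : K ≃ₐ[ℚ] K,
    (act g a = a' ∧ act g b = b') ∨ (act g a = b' ∧ act g b = a')

/-- `Gal(K/ℚ)` acts doubly transitively on the embeddings of `F` into `K`. -/
def DoublyTransitive (F K : Type) [Field F] [NumberField F] [Field K] [NumberField K] : Prop :=
  ∀ a b a' b' : F →ₐ[ℚ] K, a ≠ b → a' ≠ b' → ∃ g : K ≃ₐ[ℚ] K, act g a = a' ∧ act g b = b'

open scoped Classical in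
/-- **Main result.** -/
theorem result (E : Type) [Field E] [NumberField E] [IsCMField E]
    (hp : (Module.finrank ℚ (maximalRealSubfield E)).Prime)
    (K : Type) [Field K] [NumberField K] [IsGalois ℚ K] [IsCMField K]
    (hK : Nonempty (E →ₐ[ℚ] K)) :
    ((∀ Φ : Finset (E →ₐ[ℚ] K), IsCMType Φ → heightFn Φ ∈ avgSpan K ⊔ abSpan K) ↔
      (IsGalois ℚ (maximalRealSubfield E) ∨
        (∀ k : IntermediateField ℚ E, Module.finrank ℚ k ≠ 2) ∨
        TransitiveOnPairs (maximalRealSubfield E) K)) ∧
    ((∀ Φ : Finset (E →ₐ[ℚ] K), IsCMType Φ → ∀ ψ : E →ₐ[ℚ] K, a0 ψ Φ ∈ avgSpan K ⊔ abSpan K) ↔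
      (IsGalois ℚ (maximalRealSubfield E) ∨
        (∀ k : IntermediateField ℚ E, Module.finrank ℚ k ≠ 2) ∨
        DoublyTransitive (maximalRealSubfield E) K)) ∧
    (¬ IsGalois ℚ (maximalRealSubfield E) →
      (((∀ k : IntermediateField ℚ E, Module.finrank ℚ k ≠ 2) ∨
        TransitiveOnPairs (maximalRealSubfield E) K) →
        ∀ Φ : Finset (E →ₐ[ℚ] K), IsCMType Φ → heightFn Φ ∈ avgSpan K) ∧
      (((∀ k : IntermediateField ℚ E, Module.finrank ℚ k ≠ 2) ∨
        DoublyTransitive (maximalRealSubfield E) K) →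
        ∀ Φ : Finset (E →ₐ[ℚ] K), IsCMType Φ → ∀ ψ : E →ₐ[ℚ] K, a0 ψ Φ ∈ avgSpan K)) := by
  set c : K ≃ₐ[ℚ] K := conjugation K with hcdef
  have hc : ∀ g : K ≃ₐ[ℚ] K, c * g = g * c := Pool.Agent.Q11.CZ.conj_comm
  have hc2 : c * c = 1 := Pool.Agent.Q11.CZ.conj_mul_self
  have hfree : ∀ x : E →ₐ[ℚ] K, c • x ≠ x := Pool.Agent.N770.CP.conj_free
  have hX : Fintype.card (E →ₐ[ℚ] K) = 2 * Module.finrank ℚ (maximalRealSubfield E) := by
    rw [Pool.Agent.J4.H53.Col.card_emb E hK, Pool.Agent.J4.H53.Col.finrank_cm]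
  have havg : ∀ f : (K ≃ₐ[ℚ] K) → ℚ, f ∈ avgSpan K ↔ Pool.Agent.Q11.CZ.CondA f := by
    intro f
    rw [avgSpan_eq, Pool.Agent.Q11.CZ.mem_avgSpan_iff]
  have hsup : ∀ f : (K ≃ₐ[ℚ] K) → ℚ, f ∈ avgSpan K ⊔ abSpan K ↔ Pool.Agent.Q11.CZ.CondB f := by
    intro f
    rw [avgSpan_eq, abSpan_eq, Pool.Agent.Q11.CZ.mem_sup_iff]
  -- degree two
  have hp2 : ¬ IsGalois ℚ (maximalRealSubfield E) →
      Module.finrank ℚ (maximalRealSubfield E) ≠ 2 := by
    intro h h2
    apply h
    have h3 : Algebra.IsQuadraticExtension ℚ (maximalRealSubfield E) :=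
      { finrank_eq_two' := h2 }
    infer_instance
  -- no linked pairs
  have hun : ¬ IsGalois ℚ (maximalRealSubfield E) →
      (∀ k : IntermediateField ℚ E, Module.finrank ℚ k ≠ 2) → ∀ (x y : E →ₐ[ℚ] K)
        (g g' : K ≃ₐ[ℚ] K), Subgroup.zpowers g = Subgroup.zpowers g' →
        Pool.Agent.J4.H53.Col.df c x y g = Pool.Agent.J4.H53.Col.df c x y g' := by
    intro hgal hno x y g g' hgg
    by_cases h1 : y = x
    · rw [h1, Pool.Agent.J4.H53.Col.df_self hc hc2 hgg]
    by_cases h2 : y = c • x
    · rw [h2, Pool.Agent.J4.H53.Col.df_c_right hc2, Pool.Agent.J4.H53.Col.df_c_right hc2,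
        Pool.Agent.J4.H53.Col.df_self hc hc2 hgg]
    by_cases h3 : ∃ k : K ≃ₐ[ℚ] K, k • x = x ∧ k • y = c • y
    · obtain ⟨k, h4, h5⟩ := h3
      rw [Pool.Agent.J4.H53.Col.df_unlinked h4 h5, Pool.Agent.J4.H53.Col.df_unlinked h4 h5]
    · exfalso
      obtain ⟨O, hO, hS⟩ := Pool.Agent.J4.H53.Col.exists_side hc hc2 hfree hp (hp2 hgal) hX h1 h2 h3
      have h4 : ∃ x : E →ₐ[ℚ] K, x ∈ O := by
        by_cases h5 : x ∈ O
        · exact ⟨x, h5⟩
        · exact ⟨c • x, (hO x).mpr h5⟩
      obtain ⟨x', hx'⟩ := h4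
      obtain ⟨k, hk⟩ := Pool.Agent.J4.H53.Col.quadratic_of_side hO hS hx'
      exact hno k hk
  -- the sufficient conditions
  have hA : ¬ IsGalois ℚ (maximalRealSubfield E) →
      ((∀ k : IntermediateField ℚ E, Module.finrank ℚ k ≠ 2) ∨
        TransitiveOnPairs (maximalRealSubfield E) K) →
        ∀ Φ : Finset (E →ₐ[ℚ] K), IsCMType Φ → heightFn Φ ∈ avgSpan K := by
    intro hgal h Φ hΦ
    rw [havg]
    refine ⟨(height_cm hΦ).1, (height_cm hΦ).2, ?_⟩
    rw [heightFn_eq]
    refine Pool.Agent.J4.H53.Col.zinv_T_of hc hc2 (isHalf hΦ) ?_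
    intro x y g g' hgg
    by_cases hno : ∀ k : IntermediateField ℚ E, Module.finrank ℚ k ≠ 2
    · rw [hun hgal hno x y g g' hgg, hun hgal hno y x g g' hgg]
    · have hT := h.resolve_left hno
      push Not at hno
      obtain ⟨k, hk⟩ := hno
      obtain ⟨O, hO, hS, -⟩ := Pool.Agent.J4.H53.Col.side_of_quadratic hK hp (hp2 hgal) hk
      exact Pool.Agent.J4.H53.Col.pair_of_hom2 hc hc2 hO hS
        ((Pool.Agent.J4.H53.Col.hom2_iff hK hO hS).mpr hT) x y g g' hgg
  have hB : ¬ IsGalois ℚ (maximalRealSubfield E) →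
      ((∀ k : IntermediateField ℚ E, Module.finrank ℚ k ≠ 2) ∨
        DoublyTransitive (maximalRealSubfield E) K) →
        ∀ Φ : Finset (E →ₐ[ℚ] K), IsCMType Φ → ∀ ψ : E →ₐ[ℚ] K, a0 ψ Φ ∈ avgSpan K := by
    intro hgal h Φ hΦ ψ
    rw [havg]
    refine ⟨(a0_cm ψ hΦ).1, (a0_cm ψ hΦ).2, ?_⟩
    rw [a0_eq]
    refine Pool.Agent.J4.H53.Col.zinv_a0_of hc hc2 (isHalf hΦ) ?_
    intro y g g' hgg
    by_cases hno : ∀ k : IntermediateField ℚ E, Module.finrank ℚ k ≠ 2
    · exact hun hgal hno ψ y g g' hgg
    · have hT := h.resolve_left hno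
      push Not at hno
      obtain ⟨k, hk⟩ := hno
      obtain ⟨O, hO, hS, -⟩ := Pool.Agent.J4.H53.Col.side_of_quadratic hK hp (hp2 hgal) hk
      exact Pool.Agent.J4.H53.Col.single_of_trans2 hc hc2 hO hS
        ((Pool.Agent.J4.H53.Col.trans2_iff hK hO hS).mpr hT) ψ y g g' hgg
  have hprime : IsGalois ℚ (maximalRealSubfield E) → ∀ Φ : Finset (E →ₐ[ℚ] K), IsCMType Φ →
      ∀ ψ : E →ₐ[ℚ] K, a0 ψ Φ ∈ avgSpan K ⊔ abSpan K := fun _ Φ hΦ ψ =>
    Pool.Agent.N770.CP.prime_degree hp hΦ ψ
  refine ⟨⟨?_, ?_⟩, ⟨?_, ?_⟩, fun hgal => ⟨hA hgal, hB hgal⟩⟩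
  · intro h
    by_cases hgal : IsGalois ℚ (maximalRealSubfield E)
    · exact Or.inl hgal
    right
    by_cases hno : ∀ k : IntermediateField ℚ E, Module.finrank ℚ k ≠ 2
    · exact Or.inl hno
    right
    push Not at hno
    obtain ⟨k, hk⟩ := hno
    obtain ⟨O, hO, hS, -⟩ := Pool.Agent.J4.H53.Col.side_of_quadratic hK hp (hp2 hgal) hk
    refine (Pool.Agent.J4.H53.Col.hom2_iff hK hO hS).mp ?_
    refine Pool.Agent.J4.H53.Col.hom2_of_twist hc hc2 hfree hO hS hp (hp2 hgal) hX
      (Pool.Agent.J4.H53.Col.comm_moves hK hgal) (fun Φ hΦ => ?_)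
    have h1 := ((hsup _).mp (h Φ hΦ)).2.2
    rwa [heightFn_eq] at h1
  · intro h Φ hΦ
    by_cases hgal : IsGalois ℚ (maximalRealSubfield E)
    · have h1 : heightFn Φ = ∑ ψ ∈ Φ, a0 ψ Φ := by
        funext g
        rw [Finset.sum_apply]
        rfl
      rw [h1]
      exact Submodule.sum_mem _ (fun ψ _ => hprime hgal Φ hΦ ψ)
    · exact Submodule.mem_sup_left (hA hgal (h.resolve_left hgal) Φ hΦ)
  · intro h
    by_cases hgal : IsGalois ℚ (maximalRealSubfield E)
    · exact Or.inl hgal
    right
    by_cases hno : ∀ k : IntermediateField ℚ E, Module.finrank ℚ k ≠ 2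
    · exact Or.inl hno
    right
    push Not at hno
    obtain ⟨k, hk⟩ := hno
    obtain ⟨O, hO, hS, -⟩ := Pool.Agent.J4.H53.Col.side_of_quadratic hK hp (hp2 hgal) hk
    refine (Pool.Agent.J4.H53.Col.trans2_iff hK hO hS).mp ?_
    refine Pool.Agent.J4.H53.Col.trans2_of_twist hc hc2 hfree hO hS hp (hp2 hgal) hX
      (Pool.Agent.J4.H53.Col.comm_moves hK hgal) (fun x Φ hΦ => ?_)
    have h1 := ((hsup _).mp (h Φ hΦ x)).2.2
    rwa [a0_eq] at h1
  · intro h Φ hΦ ψ
    by_cases hgal : IsGalois ℚ (maximalRealSubfield E)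
    · exact hprime hgal Φ hΦ ψ
    · exact Submodule.mem_sup_left (hB hgal (h.resolve_left hgal) Φ hΦ ψ)

end Pool.Agent.Results.MP_a2beea_nt.PrimeDegree
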